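import Mathlib

/-! The Katz-Pavlovic / Desnyansky-Novikov shell model: signs, energy balance, tail inequality. -/

namespace DyKP

open Set (Icc Ioo)
open Finset (range)
open MeasureTheory intervalIntegral Filter Topology

noncomputable section

/-- the coefficient of the interaction of the shells `n` and `n + 1` -/
def kk (s : ℝ) (n : ℕ) : ℝ := (s ^ 2) ^ (n + 1)

/-- the forcing of a shell by the shell below it -/
def G (s : ℝ) (x : ℕ → ℝ → ℝ) : ℕ → ℝ → ℝ
  | 0, _ => 0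
  | n + 1, t => kk s n * x n t ^ 2

/-- the energy flux into the shell `n` from below -/
def In (s : ℝ) (x : ℕ → ℝ → ℝ) (n : ℕ) (t : ℝ) : ℝ := G s x n t * x n t

/-- a solution of the system, each shell continuous on the whole line -/
structure Sol (s T : ℝ) (ν : ℕ → ℝ) (x : ℕ → ℝ → ℝ) : Prop where
  hs : 100000 ≤ s
  n0 : ∀ n, 0 ≤ ν n
  n1 : ∀ n, ν n ≤ ν (n + 1)
  n2 : ∀ n, ν (n + 1) ≤ s ^ 2 * ν n
  cont : ∀ n, Continuous (x n)
  zero : ∀ t, x 0 t = 0
  ode : ∀ n, ∀ t ∈ Ioo 0 T, HasDerivAt (x n)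
    (-(ν n * x n t) + G s x n t - kk s n * x n t * x (n + 1) t) t

/-- the energy inequality from time zero -/
structure LH (T : ℝ) (ν : ℕ → ℝ) (x : ℕ → ℝ → ℝ) (E : ℝ) : Prop where
  init : Tendsto (fun N => ∑ n ∈ range N, x n 0 ^ 2) atTop (𝓝 E)
  ineq : ∀ t ∈ Icc 0 T, ∀ N, ∑ n ∈ range N, (x n t ^ 2 + 2 * ν n * ∫ r in (0 : ℝ)..t, x n r ^ 2) ≤ E

/-- the energy of the shells from `m` on is at most `e` at time `t` -/
def Tl (x : ℕ → ℝ → ℝ) (m : ℕ) (t e : ℝ) : Prop := ∀ M, ∑ j ∈ range M, x (m + j) t ^ 2 ≤ e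

theorem up {f f' φ : ℝ → ℝ} {a b : ℝ} (hab : a ≤ b) (hc : ContinuousOn f (Icc a b))
    (hd : ∀ t ∈ Ioo a b, HasDerivAt f (f' t) t) (hφ : Continuous φ)
    (h : ∀ t ∈ Ioo a b, f' t ≤ φ t) : f b - f a ≤ ∫ r in a..b, φ r :=
  sub_le_integral_of_hasDeriv_right_of_le hab hc (fun t ht => (hd t ht).hasDerivWithinAt)
    hφ.continuousOn.integrableOn_Icc h

theorem lo {f f' φ : ℝ → ℝ} {a b : ℝ} (hab : a ≤ b) (hc : ContinuousOn f (Icc a b))
    (hd : ∀ t ∈ Ioo a b, HasDerivAt f (f' t) t) (hφ : Continuous φ)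
    (h : ∀ t ∈ Ioo a b, φ t ≤ f' t) : ∫ r in a..b, φ r ≤ f b - f a :=
  integral_le_sub_of_hasDeriv_right_of_le hab hc (fun t ht => (hd t ht).hasDerivWithinAt)
    hφ.continuousOn.integrableOn_Icc h

theorem imono {f g : ℝ → ℝ} {a b : ℝ} (hab : a ≤ b) (hf : Continuous f) (hg : Continuous g)
    (h : ∀ t ∈ Ioo a b, f t ≤ g t) : ∫ r in a..b, f r ≤ ∫ r in a..b, g r :=
  integral_mono_on_of_le_Ioo hab (hf.intervalIntegrable _ _) (hg.intervalIntegrable _ _) h

theorem inonneg {f : ℝ → ℝ} {a b : ℝ} (hab : a ≤ b) (hf : Continuous f)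
    (h : ∀ t ∈ Ioo a b, 0 ≤ f t) : 0 ≤ ∫ r in a..b, f r := by
  simpa using imono hab continuous_const hf h

theorem inonpos {f : ℝ → ℝ} {a b : ℝ} (hab : a ≤ b) (hf : Continuous f)
    (h : ∀ t ∈ Ioo a b, f t ≤ 0) : ∫ r in a..b, f r ≤ 0 := by
  simpa using imono hab hf continuous_const h

theorem iadd {f g : ℝ → ℝ} (a b : ℝ) (hf : Continuous f) (hg : Continuous g) :
    ∫ r in a..b, (f r + g r) = (∫ r in a..b, f r) + ∫ r in a..b, g r :=
  integral_add (hf.intervalIntegrable _ _) (hg.intervalIntegrable _ _)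

theorem isub {f g : ℝ → ℝ} (a b : ℝ) (hf : Continuous f) (hg : Continuous g) :
    ∫ r in a..b, (f r - g r) = (∫ r in a..b, f r) - ∫ r in a..b, g r :=
  integral_sub (hf.intervalIntegrable _ _) (hg.intervalIntegrable _ _)

theorem icmul (a b c : ℝ) (f : ℝ → ℝ) : ∫ r in a..b, c * f r = c * ∫ r in a..b, f r :=
  intervalIntegral.integral_const_mul c f

theorem isplit {f : ℝ → ℝ} (a b c : ℝ) (hf : Continuous f) :
    (∫ r in a..b, f r) + ∫ r in b..c, f r = ∫ r in a..c, f r :=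
  integral_add_adjacent_intervals (hf.intervalIntegrable _ _) (hf.intervalIntegrable _ _)

theorem kk_succ (s : ℝ) (n : ℕ) : kk s (n + 1) = s ^ 2 * kk s n := by
  unfold kk; ring

theorem kk_add (s : ℝ) (m j : ℕ) : kk s (m + j) = kk s m * (s ^ 2) ^ j := by
  unfold kk; ring

theorem G_nonneg (s : ℝ) (x : ℕ → ℝ → ℝ) (n : ℕ) (t : ℝ) : 0 ≤ G s x n t := by
  cases n with
  | zero => exact le_rfl
  | succ n => unfold G kk; positivity

theorem In_succ (s : ℝ) (x : ℕ → ℝ → ℝ) (n : ℕ) (t : ℝ) :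
    In s x (n + 1) t = kk s n * x n t ^ 2 * x (n + 1) t := rfl

theorem In_zero (s : ℝ) (x : ℕ → ℝ → ℝ) (t : ℝ) : In s x 0 t = 0 := by simp [In, G]

theorem Tl.shift {x : ℕ → ℝ → ℝ} {m : ℕ} {t e : ℝ} (h : Tl x m t e) (d : ℕ) :
    Tl x (m + d) t e := by
  intro M
  have := h (d + M)
  rw [Finset.sum_range_add] at this
  have h0 : 0 ≤ ∑ j ∈ range d, x (m + j) t ^ 2 := Finset.sum_nonneg fun _ _ => sq_nonneg _
  simp only [← add_assoc] at this
  linarith

theorem Tl.pair {x : ℕ → ℝ → ℝ} {m : ℕ} {t e : ℝ} (h : Tl x m t e) (j : ℕ) :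
    x (m + j) t ^ 2 + x (m + j + 1) t ^ 2 ≤ e := by
  have := h.shift j 2
  simpa [Finset.sum_range_succ] using this

variable {s T : ℝ} {ν : ℕ → ℝ} {x : ℕ → ℝ → ℝ} {E : ℝ}

namespace Sol

theorem spos (h : Sol s T ν x) : 0 < s := by have := h.hs; linarith

theorem kpos (h : Sol s T ν x) (n : ℕ) : 0 < kk s n := by
  have := h.spos; unfold kk; positivity

theorem cG (h : Sol s T ν x) (n : ℕ) : Continuous (G s x n) := by
  cases n with
  | zero => exact continuous_const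
  | succ n => exact continuous_const.mul ((h.cont n).pow 2)

theorem cIn (h : Sol s T ν x) (n : ℕ) : Continuous (In s x n) := (h.cG n).mul (h.cont n)

theorem ode' (h : Sol s T ν x) (n : ℕ) {a b : ℝ} (ha : 0 ≤ a) (hb : b ≤ T) :
    ∀ t ∈ Ioo a b, HasDerivAt (x n)
      (-(ν n * x n t) + G s x n t - kk s n * x n t * x (n + 1) t) t :=
  fun t ht => h.ode n t ⟨ha.trans_lt ht.1, ht.2.trans_le hb⟩

/-- integrating factor -/
theorem mono (h : Sol s T ν x) (n : ℕ) {a b : ℝ} (ha : 0 ≤ a) (hab : a ≤ b) (hb : b ≤ T) :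
    x n a ≤ x n b * Real.exp (∫ r in a..b, (ν n + kk s n * x (n + 1) r)) := by
  have hc : Continuous fun r => ν n + kk s n * x (n + 1) r :=
    continuous_const.add (continuous_const.mul (h.cont _))
  have hH : ∀ t, HasDerivAt (fun u => ∫ r in a..u, (ν n + kk s n * x (n + 1) r))
      (ν n + kk s n * x (n + 1) t) t := fun t => (hc.integral_hasStrictDerivAt a t).hasDerivAt
  have hHc : Continuous fun u => ∫ r in a..u, (ν n + kk s n * x (n + 1) r) :=
    continuous_iff_continuousAt.2 fun t => (hH t).continuousAt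
  have := lo (f := fun u => x n u * Real.exp (∫ r in a..u, (ν n + kk s n * x (n + 1) r)))
    (φ := fun _ => 0) hab ((h.cont n).mul (Real.continuous_exp.comp hHc)).continuousOn
    (fun t ht => (h.ode' n ha hb t ht).mul (hH t).exp) continuous_const (fun t _ => by
      have := mul_nonneg (G_nonneg s x n t)
        (Real.exp_pos (∫ r in a..t, (ν n + kk s n * x (n + 1) r))).le
      nlinarith)
  simp at this
  linarith

theorem sign (h : Sol s T ν x) (n : ℕ) {a b : ℝ} (ha : 0 ≤ a) (hab : a ≤ b) (hb : b ≤ T)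
    (h0 : 0 ≤ x n a) : 0 ≤ x n b :=
  nonneg_of_mul_nonneg_left (h0.trans (h.mono n ha hab hb)) (Real.exp_pos _)

/-- every shell changes sign at most once -/
theorem cross (h : Sol s T ν x) (n : ℕ) {a b : ℝ} (ha : 0 ≤ a) (hab : a ≤ b) (hb : b ≤ T) :
    ∃ τ ∈ Icc a b, (∀ t ∈ Ioo a τ, x n t ≤ 0) ∧ ∀ t ∈ Ioo τ b, 0 ≤ x n t := by
  let S : Set ℝ := {t | t ∈ Icc a b ∧ 0 ≤ x n t}
  rcases S.eq_empty_or_nonempty with hS | hS
  · refine ⟨b, ⟨hab, le_rfl⟩, fun t ht => ?_, fun t ht => absurd (ht.1.trans ht.2) (lt_irrefl _)⟩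
    by_contra hc
    have : t ∈ S := ⟨⟨ht.1.le, ht.2.le⟩, (not_le.1 hc).le⟩
    rw [hS] at this; exact this
  · have hbd : BddBelow S := ⟨a, fun t ht => ht.1.1⟩
    obtain ⟨t0, ht0⟩ := hS
    have h1 : sInf S ≤ b := (csInf_le hbd ht0).trans ht0.1.2
    refine ⟨sInf S, ⟨le_csInf ⟨t0, ht0⟩ fun t ht => ht.1.1, h1⟩, fun t ht => ?_, fun t ht => ?_⟩
    · by_contra hc
      have : t ∈ S := ⟨⟨ht.1.le, ht.2.le.trans h1⟩, (not_le.1 hc).le⟩
      exact absurd (csInf_le hbd this) (not_le.2 ht.2)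
    · obtain ⟨r, hr, hrt⟩ := exists_lt_of_csInf_lt ⟨t0, ht0⟩ ht.1
      exact h.sign n (ha.trans hr.1.1) hrt.le (ht.2.le.trans hb) hr.2

theorem energy1 (h : Sol s T ν x) (n : ℕ) {a b : ℝ} (ha : 0 ≤ a) (hab : a ≤ b) (hb : b ≤ T) :
    x n b ^ 2 + 2 * ν n * ∫ r in a..b, x n r ^ 2 =
      x n a ^ 2 + 2 * (∫ r in a..b, In s x n r) - 2 * ∫ r in a..b, In s x (n + 1) r := by
  have c1 : Continuous fun r => x n r ^ 2 := (h.cont n).pow 2
  have c2 := h.cIn n
  have c3 := h.cIn (n + 1)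
  have := integral_eq_sub_of_hasDerivAt_of_le (f := fun r => x n r ^ 2)
    (f' := fun r => 2 * In s x n r - 2 * In s x (n + 1) r - 2 * ν n * x n r ^ 2) hab
    c1.continuousOn (fun t ht => ((h.ode' n ha hb t ht).fun_pow 2).congr_deriv (by
      rw [In_succ]; unfold In; simp only [Nat.cast_ofNat, Nat.add_one_sub_one, pow_one]; ring))
    (Continuous.intervalIntegrable (by fun_prop) _ _)
  rw [isub _ _ (by fun_prop) (by fun_prop), isub _ _ (by fun_prop) (by fun_prop),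
    icmul, icmul, icmul] at this
  linarith

theorem energy (h : Sol s T ν x) (m M : ℕ) {a b : ℝ} (ha : 0 ≤ a) (hab : a ≤ b) (hb : b ≤ T) :
    ∑ j ∈ range M, (x (m + j) b ^ 2 + 2 * ν (m + j) * ∫ r in a..b, x (m + j) r ^ 2) =
      ∑ j ∈ range M, x (m + j) a ^ 2 + 2 * (∫ r in a..b, In s x m r) -
        2 * ∫ r in a..b, In s x (m + M) r := by
  induction M with
  | zero => simp
  | succ M ih =>
    rw [Finset.sum_range_succ, Finset.sum_range_succ, ih, h.energy1 (m + M) ha hab hb, ← add_assoc]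
    ring

theorem term_nonneg (h : Sol s T ν x) (n : ℕ) {a b : ℝ} (hab : a ≤ b) :
    0 ≤ 2 * ν n * ∫ r in a..b, x n r ^ 2 :=
  mul_nonneg (mul_nonneg zero_le_two (h.n0 n)) (integral_nonneg_of_forall hab fun _ => sq_nonneg _)

/-- no energy comes in from infinity, on any time interval -/
theorem inflow (h : Sol s T ν x) (hL : LH T ν x E) (N : ℕ) {a b : ℝ} (ha : 0 ≤ a) (hab : a ≤ b)
    (hb : b ≤ T) : ∑ n ∈ range N, x n 0 ^ 2 - E ≤ 2 * ∫ r in a..b, In s x N r := by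
  have hT : 0 ≤ T := (ha.trans hab).trans hb
  by_cases h0 : 0 ≤ x N a
  · have h1 := inonneg hab (h.cIn N) fun t ht =>
      mul_nonneg (G_nonneg s x N t) (h.sign N ha ht.1.le (ht.2.le.trans hb) h0)
    have h2 := hL.ineq 0 ⟨le_rfl, hT⟩ N
    simp only [integral_same, mul_zero, add_zero] at h2
    linarith
  · have h1 : ∫ r in (0 : ℝ)..a, In s x N r ≤ 0 := inonpos ha (h.cIn N) fun t ht =>
      mul_nonpos_of_nonneg_of_nonpos (G_nonneg s x N t) (by
        by_contra hc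
        exact h0 (h.sign N ht.1.le ht.2.le (hab.trans hb) (not_le.1 hc).le))
    have h2 := isplit 0 a b (h.cIn N)
    have h3 := h.energy 0 N le_rfl (ha.trans hab) hb
    have h4 := hL.ineq b ⟨ha.trans hab, hb⟩ N
    simp only [zero_add, In_zero, intervalIntegral.integral_zero, mul_zero, add_zero] at h3
    linarith

/-- the energy inequality for the shells from `m` on -/
theorem tail (h : Sol s T ν x) (hL : LH T ν x E) (m M : ℕ) {a b e : ℝ} (ha : 0 ≤ a) (hab : a ≤ b)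
    (hb : b ≤ T) (he : Tl x m a e) :
    ∑ j ∈ range M, (x (m + j) b ^ 2 + 2 * ν (m + j) * ∫ r in a..b, x (m + j) r ^ 2) ≤
      e + 2 * ∫ r in a..b, In s x m r := by
  have lim : Tendsto (fun d => e + 2 * (∫ r in a..b, In s x m r) -
      (∑ n ∈ range (d + (m + M)), x n 0 ^ 2 - E)) atTop
      (𝓝 (e + 2 * (∫ r in a..b, In s x m r) - (E - E))) :=
    tendsto_const_nhds.sub (((tendsto_add_atTop_iff_nat (m + M)).2 hL.init).sub_const E)
  rw [sub_self, sub_zero] at lim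
  refine ge_of_tendsto' lim fun d => ?_
  have h1 := h.energy m (M + d) ha hab hb
  have h2 := h.inflow hL (m + (M + d)) ha hab hb
  have h3 := he (M + d)
  rw [Finset.sum_range_add] at h1
  have h4 : 0 ≤ ∑ j ∈ range d, (x (m + (M + j)) b ^ 2 +
      2 * ν (m + (M + j)) * ∫ r in a..b, x (m + (M + j)) r ^ 2) :=
    Finset.sum_nonneg fun j _ => add_nonneg (sq_nonneg _) (h.term_nonneg _ hab)
  rw [show d + (m + M) = m + (M + d) by ring]
  linarith

theorem tail' (h : Sol s T ν x) (hL : LH T ν x E) (m M : ℕ) {a b e : ℝ} (ha : 0 ≤ a) (hab : a ≤ b)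
    (hb : b ≤ T) (he : Tl x m a e) (hm : ∀ t ∈ Ioo a b, x m t ≤ 0) :
    ∑ j ∈ range M, (x (m + j) b ^ 2 + 2 * ν (m + j) * ∫ r in a..b, x (m + j) r ^ 2) ≤ e := by
  have h1 := h.tail hL m M ha hab hb he
  have h2 : ∫ r in a..b, In s x m r ≤ 0 := inonpos hab (h.cIn m) fun t ht =>
    mul_nonpos_of_nonneg_of_nonpos (G_nonneg s x m t) (hm t ht)
  linarith

theorem tailTl (h : Sol s T ν x) (hL : LH T ν x E) (m : ℕ) {a b e : ℝ} (ha : 0 ≤ a) (hab : a ≤ b)
    (hb : b ≤ T) (he : Tl x m a e) (hm : ∀ t ∈ Ioo a b, x m t ≤ 0) : Tl x m b e := fun M =>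
  le_trans (Finset.sum_le_sum fun _ _ => le_add_of_nonneg_right (h.term_nonneg _ hab))
    (h.tail' hL m M ha hab hb he hm)

theorem tl0 (h : Sol s T ν x) (hL : LH T ν x E) {t : ℝ} (ht : t ∈ Icc 0 T) : Tl x 0 t E := fun M => by
  refine le_trans (Finset.sum_le_sum fun j _ => ?_) (hL.ineq t ht M)
  rw [zero_add]
  exact le_add_of_nonneg_right (h.term_nonneg _ ht.1)

end Sol

end

end DyKP
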