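import Pool.Agent.Lib.MP_3d7a54_an.Basic

/-! The cubic estimate for the shells above a shell that stays non-positive. -/

namespace DyKP

open Set (Icc Ioo)
open Finset (range)
open MeasureTheory intervalIntegral Filter Topology

noncomputable section

theorem alg1 {s a b p q : ℝ} (hs : 0 < s) (ha : a ≤ b) (hb : b ≤ s ^ 2 * a) (h0 : 0 ≤ a)
    (hp : 0 ≤ p) (hq : 0 ≤ q) : (a + b) * (p * q) ≤ s * (a * p ^ 2 + b * q ^ 2) := by
  have hb0 : 0 ≤ b := h0.trans ha
  have h1 : (a + b) * (p * q) ≤ 2 * b * (p * q) :=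
    mul_le_mul_of_nonneg_right (by linarith) (mul_nonneg hp hq)
  have h2 : 0 ≤ b * (p - s * q) ^ 2 := mul_nonneg hb0 (sq_nonneg _)
  have h3 : b * p ^ 2 ≤ s ^ 2 * a * p ^ 2 := mul_le_mul_of_nonneg_right hb (sq_nonneg _)
  refine h1.trans (le_of_mul_le_mul_left ?_ hs)
  nlinarith

theorem alg2 {p q : ℝ} (hq : 0 ≤ q) : p * q ^ 2 ≤ 2 * (p ^ 2 * q) + q ^ 3 / 8 := by
  have := mul_nonneg hq (sq_nonneg (p - q / 4))
  nlinarith

theorem alg3 {η p w : ℝ} (hη : 0 < η) (hp : 0 ≤ p) (hw : 0 ≤ w) :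
    p ^ 2 * w ≤ η * p ^ 3 + w ^ 3 / η ^ 2 := by
  by_cases h : w ≤ η * p
  · have h1 : p ^ 2 * w ≤ p ^ 2 * (η * p) := mul_le_mul_of_nonneg_left h (sq_nonneg _)
    have h2 : 0 ≤ w ^ 3 / η ^ 2 := by positivity
    nlinarith
  · have h1 : (η * p) ^ 2 ≤ w ^ 2 := pow_le_pow_left₀ (by positivity) (not_le.1 h).le 2
    have h2 : p ^ 2 * w ≤ w ^ 3 / η ^ 2 := by
      rw [le_div_iff₀ (by positivity)]
      nlinarith [mul_le_mul_of_nonneg_right h1 hw]
    have h3 : 0 ≤ η * p ^ 3 := by positivity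
    linarith

theorem alg4 {A L p q w : ℝ} (hA : 0 < A) (hL : 0 < L) (hp : 0 ≤ p) (hw : 0 ≤ w) :
    L * (p * q * w) ≤ A / 2 * (L * q ^ 2 * w) + p ^ 3 / 8 + 8 * L / A ^ 3 * (L ^ 2 * w ^ 3) := by
  have h1 : p * q ≤ A / 2 * q ^ 2 + p ^ 2 / (2 * A) := by
    have : 0 ≤ (p - A * q) ^ 2 / (2 * A) := by positivity
    have e : (p - A * q) ^ 2 / (2 * A) = A / 2 * q ^ 2 + p ^ 2 / (2 * A) - p * q := by
      field_simp; ring
    linarith
  have h2 := alg3 (η := A / (4 * L)) (by positivity) hp hw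
  have h3 := mul_le_mul_of_nonneg_left h2 (show 0 ≤ L / (2 * A) by positivity)
  have h4 := mul_le_mul_of_nonneg_left h1 (show 0 ≤ L * w by positivity)
  have e1 : L / (2 * A) * (A / (4 * L) * p ^ 3 + w ^ 3 / (A / (4 * L)) ^ 2) =
      p ^ 3 / 8 + 8 * L / A ^ 3 * (L ^ 2 * w ^ 3) := by field_simp; ring
  have e2 : L * w * (A / 2 * q ^ 2 + p ^ 2 / (2 * A)) =
      A / 2 * (L * q ^ 2 * w) + L / (2 * A) * (p ^ 2 * w) := by field_simp
  linarith

/-- a maximum principle for sequences -/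
theorem maxp {I : ℕ → ℝ} {K ρ a σ τ : ℝ} (hρ : 1 ≤ ρ) (hK : 0 ≤ K) (ha : 0 ≤ a) (hσ : 0 ≤ σ)
    (hτ : 0 ≤ τ) (hs : 3 / 16 + σ * ρ + τ * ρ ^ 2 ≤ 1 / 2) (h0 : ∀ j, I j ≤ K * ρ ^ j)
    (h : ∀ j, I j ≤ a + I (j - 1) / 16 + I j / 8 + σ * I (j + 1) + τ * I (j + 2)) (j : ℕ) :
    I j ≤ 2 * a := by
  have key : ∀ i : ℕ, ∀ j, I j ≤ 2 * a + K * (1 / 2) ^ i * ρ ^ j := by
    intro i
    induction i with
    | zero => intro j; have := h0 j; simp only [pow_zero, mul_one]; linarith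
    | succ i ih =>
      intro j
      set X := K * (1 / 2) ^ i * ρ ^ j with hX
      have hX0 : 0 ≤ X := by positivity
      have h1 : I (j - 1) ≤ 2 * a + X := (ih _).trans (add_le_add le_rfl
        (mul_le_mul_of_nonneg_left (pow_le_pow_right₀ hρ (Nat.sub_le _ _)) (by positivity)))
      have h2 : I j ≤ 2 * a + X := ih j
      have h3 : I (j + 1) ≤ 2 * a + X * ρ := by rw [hX, mul_assoc, ← pow_succ]; exact ih _
      have h4 : I (j + 2) ≤ 2 * a + X * ρ ^ 2 := by rw [hX, mul_assoc, ← pow_add]; exact ih _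
      have h5 := mul_le_mul_of_nonneg_left h3 hσ
      have h6 := mul_le_mul_of_nonneg_left h4 hτ
      have h7 : σ ≤ σ * ρ := le_mul_of_one_le_right hσ hρ
      have h8 : τ ≤ τ * ρ ^ 2 := le_mul_of_one_le_right hτ (one_le_pow₀ hρ)
      have h9 := mul_le_mul_of_nonneg_left hs hX0
      have h10 : a * (3 / 16 + σ + τ) ≤ a * (1 / 2) := mul_le_mul_of_nonneg_left (by linarith) ha
      have e : K * (1 / 2) ^ (i + 1) * ρ ^ j = X * (1 / 2) := by rw [hX]; ring
      rw [e]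
      have := h j
      nlinarith
  have lim : Tendsto (fun i : ℕ => 2 * a + K * (1 / 2 : ℝ) ^ i * ρ ^ j) atTop
      (𝓝 (2 * a + K * 0 * ρ ^ j)) :=
    tendsto_const_nhds.add (((tendsto_pow_atTop_nhds_zero_of_lt_one (by norm_num)
      (by norm_num)).const_mul K).mul_const _)
  rw [mul_zero, zero_mul, add_zero] at lim
  exact ge_of_tendsto' lim fun i => key i j

theorem isub3 {f g u : ℝ → ℝ} (a b : ℝ) (hf : Continuous f) (hg : Continuous g)
    (hu : Continuous u) : ∫ r in a..b, (f r - g r - u r) =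
      (∫ r in a..b, f r) - (∫ r in a..b, g r) - ∫ r in a..b, u r := by
  rw [isub a b (f := fun r => f r - g r) (hf.sub hg) hu, isub a b hf hg]

/-- the cubic density of a shell -/
def cc (s : ℝ) (x : ℕ → ℝ → ℝ) (n : ℕ) (t : ℝ) : ℝ := kk s n * |x n t| ^ 3

/-- the error density -/
def Wf (s : ℝ) (ν : ℕ → ℝ) (x : ℕ → ℝ → ℝ) (A : ℝ) (n : ℕ) (t : ℝ) : ℝ :=
  s * (ν n * x n t ^ 2 + ν (n + 1) * x (n + 1) t ^ 2) + 2 * |In s x (n + 1) t| +
    1 / (8 * s ^ 2) * cc s x (n + 1) t + A / 2 * |In s x (n + 1 + 1) t| + 1 / 8 * cc s x n t +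
    8 * s ^ 2 / A ^ 3 * cc s x (n + 1 + 1) t

/-- a time window on which the shell `m` is non-positive -/
structure Win (s T : ℝ) (ν : ℕ → ℝ) (x : ℕ → ℝ → ℝ) (E : ℝ) (m : ℕ) (a b e : ℝ) : Prop where
  h : Sol s T ν x
  hL : LH T ν x E
  ha : 0 ≤ a
  hab : a ≤ b
  hb : b ≤ T
  he : Tl x m a e
  hm : ∀ t ∈ Ioo a b, x m t ≤ 0

variable {s T : ℝ} {ν : ℕ → ℝ} {x : ℕ → ℝ → ℝ} {E : ℝ} {m : ℕ} {a b e : ℝ}

theorem Sol.ccc (h : Sol s T ν x) (n : ℕ) : Continuous (cc s x n) :=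
  continuous_const.mul ((h.cont n).abs.pow 3)

theorem Sol.cc0 (h : Sol s T ν x) (n : ℕ) (t : ℝ) : 0 ≤ cc s x n t :=
  mul_nonneg (h.kpos n).le (by positivity)

theorem Sol.cW (h : Sol s T ν x) (A : ℝ) (n : ℕ) : Continuous (Wf s ν x A n) := by
  have c1 := h.cont n
  have c2 := h.cont (n + 1)
  have c3 := h.cIn (n + 1)
  have c4 := h.cIn (n + 1 + 1)
  have c5 := h.ccc n
  have c6 := h.ccc (n + 1)
  have c7 := h.ccc (n + 1 + 1)
  unfold Wf
  fun_prop

namespace Win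

theorem e0 (w : Win s T ν x E m a b e) : 0 ≤ e := by simpa using w.he 0

theorem tl (w : Win s T ν x E m a b e) {t : ℝ} (ht : t ∈ Icc a b) : Tl x m t e :=
  w.h.tailTl w.hL m w.ha ht.1 (ht.2.trans w.hb) w.he fun r hr => w.hm r ⟨hr.1, hr.2.trans_le ht.2⟩

theorem abs_le (w : Win s T ν x E m a b e) {t : ℝ} (ht : t ∈ Icc a b) (j : ℕ) :
    |x (m + j) t| ≤ Real.sqrt e :=
  Real.abs_le_sqrt (by have := (w.tl ht).pair j; nlinarith [sq_nonneg (x (m + j + 1) t)])

theorem diss (w : Win s T ν x E m a b e) (j : ℕ) :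
    (ν (m + j) * ∫ r in a..b, x (m + j) r ^ 2) +
      (ν (m + j + 1) * ∫ r in a..b, x (m + j + 1) r ^ 2) ≤ e / 2 := by
  have h1 := w.h.tail' w.hL m (j + 1 + 1) w.ha w.hab w.hb w.he w.hm
  rw [Finset.sum_range_succ, Finset.sum_range_succ, ← add_assoc m j 1] at h1
  have h2 : 0 ≤ ∑ i ∈ range j, (x (m + i) b ^ 2 + 2 * ν (m + i) * ∫ r in a..b, x (m + i) r ^ 2) :=
    Finset.sum_nonneg fun j _ => add_nonneg (sq_nonneg _) (w.h.term_nonneg _ w.hab)
  nlinarith [sq_nonneg (x (m + j) b), sq_nonneg (x (m + j + 1) b)]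

theorem flux (w : Win s T ν x E m a b e) (j : ℕ) : ∫ r in a..b, |In s x (m + j + 1) r| ≤ e := by
  obtain ⟨τ, hτ, h1, h2⟩ := w.h.cross (m + j + 1) w.ha w.hab w.hb
  have c := w.h.cIn (m + j + 1)
  have a1 : ∫ r in a..τ, |In s x (m + j + 1) r| ≤ ∫ r in a..τ, -In s x (m + j + 1) r :=
    imono hτ.1 c.abs c.neg fun t ht =>
      (abs_of_nonpos (mul_nonpos_of_nonneg_of_nonpos (G_nonneg s x _ t) (h1 t ht))).le
  have a2 : ∫ r in τ..b, |In s x (m + j + 1) r| ≤ ∫ r in τ..b, In s x (m + j + 1) r :=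
    imono hτ.2 c.abs c fun t ht => (abs_of_nonneg (mul_nonneg (G_nonneg s x _ t) (h2 t ht))).le
  rw [intervalIntegral.integral_neg] at a1
  have a3 := w.h.tail w.hL (m + (j + 1)) 0 w.ha hτ.1 (hτ.2.trans w.hb) (w.he.shift (j + 1))
  have a4 := w.h.energy m (j + 1) (w.ha.trans hτ.1) hτ.2 w.hb
  have a5 := w.tl hτ (j + 1)
  have a6 : ∫ r in τ..b, In s x m r ≤ 0 := inonpos hτ.2 (w.h.cIn m) fun t ht =>
    mul_nonpos_of_nonneg_of_nonpos (G_nonneg s x m t) (w.hm t ⟨hτ.1.trans_lt ht.1, ht.2⟩)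
  have a7 : 0 ≤ ∑ i ∈ range (j + 1),
      (x (m + i) b ^ 2 + 2 * ν (m + i) * ∫ r in τ..b, x (m + i) r ^ 2) :=
    Finset.sum_nonneg fun j _ => add_nonneg (sq_nonneg _) (w.h.term_nonneg _ hτ.2)
  have a8 := isplit a τ b c.abs
  rw [Finset.sum_range_zero] at a3
  rw [← add_assoc m j 1] at a3 a4
  linarith

theorem core (w : Win s T ν x E m a b e) (j : ℕ) {c d σ A : ℝ} (hA : 0 < A) (hσ : σ = 1 ∨ σ = -1)
    (hc : a ≤ c) (hcd : c ≤ d) (hd : d ≤ b) (hs : ∀ t ∈ Ioo c d, 0 ≤ σ * x (m + j) t)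
    {φ : ℝ → ℝ} (hφ : Continuous φ)
    (hG : ∀ t ∈ Ioo c d, -(σ * G s x (m + j) t * x (m + j + 1) t) ≤ φ t) :
    ∫ r in c..d, (cc s x (m + j) r - Wf s ν x A (m + j) r - φ r) ≤ e := by
  set n := m + j with hn
  have h := w.h
  have bd : ∀ t ∈ Icc a b, |σ * (x n t * x (n + 1) t)| ≤ e / 2 := by
    intro t ht
    have h1 := (w.tl ht).pair j
    rw [← hn] at h1
    rw [_root_.abs_le]
    rcases hσ with rfl | rfl <;> constructor <;>
      nlinarith [sq_nonneg (x n t + x (n + 1) t), sq_nonneg (x n t - x (n + 1) t)]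
  have b1 := _root_.abs_le.1 (bd c ⟨hc, hcd.trans hd⟩)
  have b2 := _root_.abs_le.1 (bd d ⟨hc.trans hcd, hd⟩)
  have := lo (f := fun t => σ * (x n t * x (n + 1) t))
    (φ := fun r => cc s x n r - Wf s ν x A n r - φ r) hcd
    (continuous_const.mul ((h.cont n).mul (h.cont (n + 1)))).continuousOn
    (fun t ht => ((h.ode' n (w.ha.trans hc) (hd.trans w.hb) t ht).mul
      (h.ode' (n + 1) (w.ha.trans hc) (hd.trans w.hb) t ht)).const_mul σ)
    (((h.ccc n).sub (h.cW A n)).sub hφ) (fun t ht => by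
      have hp := hs t ht
      have hg := hG t ht
      have kp := h.kpos n
      have sp := h.spos
      have e1 : |x n t| = σ * x n t := by
        rcases hσ with rfl | rfl
        · rw [one_mul] at hp ⊢; exact abs_of_nonneg hp
        · rw [neg_one_mul] at hp ⊢; exact abs_of_nonpos (by linarith)
      have e2 : x n t ^ 2 = |x n t| ^ 2 := (sq_abs _).symm
      have e3 : x (n + 1) t ^ 2 = |x (n + 1) t| ^ 2 := (sq_abs _).symm
      have e4 : |In s x (n + 1) t| = kk s n * (|x n t| ^ 2 * |x (n + 1) t|) := by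
        rw [In_succ, abs_mul, abs_mul, abs_of_pos kp, abs_pow]; ring
      have e5 : |In s x (n + 1 + 1) t| =
          kk s n * (s ^ 2 * |x (n + 1) t| ^ 2 * |x (n + 1 + 1) t|) := by
        rw [In_succ, abs_mul, abs_mul, abs_of_pos (h.kpos _), abs_pow, kk_succ]; ring
      have e6 : G s x (n + 1) t = kk s n * x n t ^ 2 := rfl
      have q0 := abs_nonneg (x (n + 1) t)
      have w0 := abs_nonneg (x (n + 1 + 1) t)
      have p0 := abs_nonneg (x n t)
      have i1 := alg1 sp (h.n1 n) (h.n2 n) (h.n0 n) p0 q0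
      have i2 := mul_le_mul_of_nonneg_left (alg2 (p := |x n t|) q0) kp.le
      have i4 := mul_le_mul_of_nonneg_left
        (alg4 (q := |x (n + 1) t|) hA (show 0 < s ^ 2 by positivity) p0 w0) kp.le
      have j1 : (ν n + ν (n + 1)) * (|x n t| * x (n + 1) t) ≤
          (ν n + ν (n + 1)) * (|x n t| * |x (n + 1) t|) :=
        mul_le_mul_of_nonneg_left (mul_le_mul_of_nonneg_left (le_abs_self _) p0)
          (add_nonneg (h.n0 _) (h.n0 _))
      have j2 : kk s n * (s ^ 2 * (|x n t| * (x (n + 1) t * x (n + 1 + 1) t))) ≤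
          kk s n * (s ^ 2 * (|x n t| * |x (n + 1) t| * |x (n + 1 + 1) t|)) := by
        refine mul_le_mul_of_nonneg_left (mul_le_mul_of_nonneg_left ?_ (sq_nonneg _)) kp.le
        rw [mul_assoc, ← abs_mul (x (n + 1) t)]
        exact mul_le_mul_of_nonneg_left (le_abs_self _) p0
      have f1 : σ * ((-(ν n * x n t) + G s x n t - kk s n * x n t * x (n + 1) t) * x (n + 1) t +
          x n t * (-(ν (n + 1) * x (n + 1) t) + G s x (n + 1) t -
            kk s (n + 1) * x (n + 1) t * x (n + 1 + 1) t)) =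
          -((ν n + ν (n + 1)) * (|x n t| * x (n + 1) t)) + σ * G s x n t * x (n + 1) t -
            kk s n * (|x n t| * |x (n + 1) t| ^ 2) + kk s n * |x n t| ^ 3 -
            kk s n * (s ^ 2 * (|x n t| * (x (n + 1) t * x (n + 1 + 1) t))) := by
        rw [← e3, e6, kk_succ, pow_succ |x n t| 2, ← e2, e1]; ring
      have f2 : Wf s ν x A n t = s * (ν n * |x n t| ^ 2 + ν (n + 1) * |x (n + 1) t| ^ 2) +
          kk s n * (2 * (|x n t| ^ 2 * |x (n + 1) t|) + |x (n + 1) t| ^ 3 / 8) +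
          kk s n * (A / 2 * (s ^ 2 * |x (n + 1) t| ^ 2 * |x (n + 1 + 1) t|) + |x n t| ^ 3 / 8 +
            8 * s ^ 2 / A ^ 3 * ((s ^ 2) ^ 2 * |x (n + 1 + 1) t| ^ 3)) := by
        unfold Wf cc
        rw [e4, e5, kk_succ s (n + 1), kk_succ s n, ← e2, ← e3]
        field_simp
        ring
      rw [f1, f2]
      unfold cc
      linarith)
  linarith

theorem intW (w : Win s T ν x E m a b e) (j : ℕ) {A : ℝ} (hA : 0 < A) :
    ∫ r in a..b, Wf s ν x A (m + j) r ≤ (2 + s / 2 + A / 2) * e +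
      1 / (8 * s ^ 2) * (∫ r in a..b, cc s x (m + j + 1) r) + 1 / 8 * (∫ r in a..b, cc s x (m + j) r) +
      8 * s ^ 2 / A ^ 3 * ∫ r in a..b, cc s x (m + j + 1 + 1) r := by
  have h := w.h
  have c1 := h.cont (m + j)
  have c2 := h.cont (m + j + 1)
  have c3 := h.cIn (m + j + 1)
  have c4 := h.cIn (m + j + 1 + 1)
  have c5 := h.ccc (m + j)
  have c6 := h.ccc (m + j + 1)
  have c7 := h.ccc (m + j + 1 + 1)
  have d1 := mul_le_mul_of_nonneg_left (w.diss j) h.spos.le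
  have d2 := w.flux j
  have d3 := mul_le_mul_of_nonneg_left (w.flux (j + 1)) (show 0 ≤ A / 2 by positivity)
  rw [← add_assoc m j 1] at d3
  unfold Wf
  rw [iadd _ _ (by fun_prop) (by fun_prop), iadd _ _ (by fun_prop) (by fun_prop),
    iadd _ _ (by fun_prop) (by fun_prop), iadd _ _ (by fun_prop) (by fun_prop),
    iadd _ _ (by fun_prop) (by fun_prop), icmul, icmul, icmul, icmul, icmul, icmul,
    iadd _ _ (by fun_prop) (by fun_prop), icmul, icmul]
  linarith

theorem gterm (w : Win s T ν x E m a b e) : ∫ r in a..b, G s x m r * x (m + 1) r ≤ 2 * e := by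
  have h := w.h
  obtain ⟨τ, hτ, h1, h2⟩ := h.cross (m + 1) w.ha w.hab w.hb
  have c : Continuous fun r => G s x m r * x (m + 1) r := (h.cG m).mul (h.cont _)
  have a1 : ∫ r in a..τ, G s x m r * x (m + 1) r ≤ 0 := inonpos hτ.1 c fun t ht =>
    mul_nonpos_of_nonneg_of_nonpos (G_nonneg s x _ t) (h1 t ht)
  have R0 := Real.sqrt_nonneg e
  have a2 := lo (f := fun t => Real.sqrt e * x m t) hτ.2
    (continuous_const.mul (h.cont m)).continuousOn
    (fun t ht => (h.ode' m (w.ha.trans hτ.1) w.hb t ht).const_mul _) c (fun t ht => by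
      have b1 := w.hm t ⟨hτ.1.trans_lt ht.1, ht.2⟩
      have b2 := h2 t ht
      have b3 := (le_abs_self _).trans (w.abs_le ⟨hτ.1.trans ht.1.le, ht.2.le⟩ 1)
      have b4 := mul_le_mul_of_nonneg_left b3 (G_nonneg s x m t)
      have b5 : 0 ≤ -(ν m * x m t) - kk s m * x m t * x (m + 1) t := by
        have := mul_nonneg (h.n0 m) (neg_nonneg.2 b1)
        have := mul_nonneg (mul_nonneg (h.kpos m).le (neg_nonneg.2 b1)) b2
        linarith
      have b6 := mul_nonneg R0 b5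
      nlinarith)
  have a3 := _root_.abs_le.1 (w.abs_le hτ 0)
  have a4 := _root_.abs_le.1 (w.abs_le ⟨w.hab, le_rfl⟩ 0)
  have a5 := Real.mul_self_sqrt w.e0
  have a6 := isplit a τ b c
  rw [add_zero] at a3 a4
  have a7 := mul_le_mul_of_nonneg_left a3.1 R0
  have a8 := mul_le_mul_of_nonneg_left a4.2 R0
  nlinarith

theorem recur (w : Win s T ν x E m a b e) {A : ℝ} (hA : 0 < A) (j : ℕ) :
    (∫ r in a..b, cc s x (m + j) r) ≤ (5 + s / 2 + A / 2) * e +
      (∫ r in a..b, cc s x (m + (j - 1)) r) / 16 + (∫ r in a..b, cc s x (m + j) r) / 8 +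
      (1 / (8 * s ^ 2) + 256 / (s ^ 2) ^ 2) * (∫ r in a..b, cc s x (m + (j + 1)) r) +
      8 * s ^ 2 / A ^ 3 * ∫ r in a..b, cc s x (m + (j + 2)) r := by
  have h := w.h
  have sp := h.spos
  have iw := w.intW j hA
  have I0 : ∀ n, 0 ≤ ∫ r in a..b, cc s x n r := fun n =>
    integral_nonneg_of_forall w.hab (h.cc0 n)
  have e0 := w.e0
  change _ ≤ _ + _ + _ + _ * (∫ r in a..b, cc s x (m + j + 1) r) +
    _ * ∫ r in a..b, cc s x (m + j + 1 + 1) r
  cases j with
  | zero =>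
    have c : Continuous fun r => G s x m r * x (m + 1) r := (h.cG m).mul (h.cont _)
    have h1 := w.core 0 (σ := -1) hA (Or.inr rfl) le_rfl w.hab le_rfl
      (fun t ht => by have := w.hm t ht; rw [add_zero]; linarith) c
      (fun t _ => by rw [add_zero]; linarith)
    rw [isub3 _ _ (h.ccc _) (h.cW _ _) c] at h1
    have h2 := w.gterm
    have h3 := I0 (m + (0 - 1))
    have h4 := mul_nonneg (show 0 ≤ 256 / (s ^ 2) ^ 2 by positivity) (I0 (m + 0 + 1))
    linarith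
  | succ i =>
    obtain ⟨τ, hτ, h1, h2⟩ := h.cross (m + (i + 1)) w.ha w.hab w.hb
    have c5 := h.ccc (m + i)
    have c6 := h.ccc (m + (i + 1) + 1)
    have c : Continuous fun r =>
        1 / 16 * cc s x (m + i) r + 256 / (s ^ 2) ^ 2 * cc s x (m + (i + 1) + 1) r := by fun_prop
    have hG : ∀ t, |G s x (m + (i + 1)) t * x (m + (i + 1) + 1) t| ≤
        1 / 16 * cc s x (m + i) t + 256 / (s ^ 2) ^ 2 * cc s x (m + (i + 1) + 1) t := by
      intro t
      have e1 : G s x (m + (i + 1)) t = kk s (m + i) * x (m + i) t ^ 2 := rfl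
      have e2 : kk s (m + (i + 1) + 1) = s ^ 2 * (s ^ 2 * kk s (m + i)) := by
        rw [kk_succ, ← add_assoc, kk_succ]
      have i3 := mul_le_mul_of_nonneg_left (alg3 (η := 1 / 16) (by norm_num)
        (abs_nonneg (x (m + i) t)) (abs_nonneg (x (m + (i + 1) + 1) t))) (h.kpos (m + i)).le
      rw [e1, abs_mul, abs_mul, abs_of_pos (h.kpos _), abs_pow]
      unfold cc
      rw [e2]
      refine le_trans (le_of_eq (mul_assoc _ _ _)) (i3.trans (le_of_eq ?_))
      field_simp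
      ring
    have p1 := w.core (i + 1) (σ := -1) hA (Or.inr rfl) le_rfl hτ.1 hτ.2
      (fun t ht => by have := h1 t ht; linarith) c
      (fun t _ => by have := (_root_.abs_le.1 (hG t)).2; linarith)
    have p2 := w.core (i + 1) (σ := 1) hA (Or.inl rfl) hτ.1 hτ.2 le_rfl
      (fun t ht => by have := h2 t ht; linarith) c
      (fun t _ => by have := (_root_.abs_le.1 (hG t)).1; linarith)
    have p3 := isplit a τ b (((h.ccc (m + (i + 1))).sub (h.cW A (m + (i + 1)))).sub c)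
    simp only [Pi.sub_apply] at p3
    rw [isub3 a b (h.ccc _) (h.cW _ _) c, iadd a b (by fun_prop) (by fun_prop), icmul, icmul] at p3
    rw [Nat.add_sub_cancel]
    linarith

/-- the cubic estimate -/
theorem cubic (w : Win s T ν x E m a b e) (j : ℕ) : ∫ r in a..b, cc s x (m + j) r ≤ 3 * s * e := by
  have h := w.h
  have sp := h.spos
  have hs := h.hs
  have e0 := w.e0
  have hL : 10000 ≤ s ^ 2 := by nlinarith
  have g : ∀ j, ∫ r in a..b, cc s x (m + j) r ≤
      kk s m * Real.sqrt e ^ 3 * (b - a) * (s ^ 2) ^ j := by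
    intro j
    have := imono (g := fun _ => kk s m * Real.sqrt e ^ 3 * (s ^ 2) ^ j) w.hab (h.ccc (m + j))
      continuous_const fun t ht => by
        unfold cc
        rw [kk_add, mul_right_comm]
        exact mul_le_mul_of_nonneg_right (mul_le_mul_of_nonneg_left
          (pow_le_pow_left₀ (abs_nonneg _) (w.abs_le ⟨ht.1.le, ht.2.le⟩ j) 3) (h.kpos m).le)
          (by positivity)
    rw [intervalIntegral.integral_const, smul_eq_mul] at this
    linarith
  have s1 := maxp (I := fun j => ∫ r in a..b, cc s x (m + j) r) (ρ := s ^ 2) (by linarith)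
    (mul_nonneg (mul_nonneg (h.kpos m).le (by positivity)) (sub_nonneg.2 w.hab))
    (a := (5 + s / 2 + 4 * s ^ 2 / 2) * e) (by positivity) (by positivity) (by positivity)
    (by
      have e1 : (1 / (8 * s ^ 2) + 256 / (s ^ 2) ^ 2) * s ^ 2 = 1 / 8 + 256 / s ^ 2 := by
        field_simp
      have e2 : 8 * s ^ 2 / (4 * s ^ 2) ^ 3 * (s ^ 2) ^ 2 = 1 / 8 := by field_simp; norm_num
      have e3 : 256 / s ^ 2 ≤ 1 / 16 := by rw [div_le_iff₀ (by positivity)]; linarith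
      rw [e1, e2]; linarith) g (w.recur (A := 4 * s ^ 2) (by positivity))
  have s2 := maxp (I := fun j => ∫ r in a..b, cc s x (m + j) r) (ρ := 1) le_rfl
    (K := 2 * ((5 + s / 2 + 4 * s ^ 2 / 2) * e)) (by positivity)
    (a := (5 + s / 2 + s / 2) * e) (by positivity) (by positivity) (by positivity)
    (by
      have e1 : 1 / (8 * s ^ 2) ≤ 1 / 16 := by
        rw [div_le_iff₀ (by positivity)]; linarith
      have e2 : 8 * s ^ 2 / s ^ 3 ≤ 1 / 16 := by
        rw [div_le_iff₀ (by positivity)]; nlinarith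
      have e3 : 256 / (s ^ 2) ^ 2 ≤ 1 / 16 := by rw [div_le_iff₀ (by positivity)]; nlinarith
      rw [mul_one, one_pow, mul_one]; linarith)
    (fun j => by rw [one_pow, mul_one]; exact s1 j) (w.recur (A := s) sp) j
  have : 10 * e ≤ s * e := mul_le_mul_of_nonneg_right (by linarith) e0
  linarith

end Win

end

end DyKP
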