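import Pool.Agent.Lib.MP_3d7a54_an.Cubic

/-! The universal bound for negative shells. -/

namespace DyKP

open Set (Icc Ioo)
open Finset (range)
open MeasureTheory intervalIntegral Filter Topology

noncomputable section

theorem alg5 {η u : ℝ} (hη : 0 < η) : u ^ 2 ≤ η ^ 2 + |u| ^ 3 / η := by
  have h0 := abs_nonneg u
  rw [← sq_abs u]
  by_cases h : |u| ≤ η
  · have h1 : |u| ^ 2 ≤ η ^ 2 := pow_le_pow_left₀ h0 h 2
    have h2 : 0 ≤ |u| ^ 3 / η := by positivity
    linarith
  · have h1 : |u| ^ 2 ≤ |u| ^ 3 / η := by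
      rw [le_div_iff₀ hη]
      nlinarith [mul_le_mul_of_nonneg_left (not_le.1 h).le (sq_nonneg |u|)]
    nlinarith [sq_nonneg η]

theorem meanval {f : ℕ → ℝ → ℝ} {a b C : ℝ} (hab : a < b) (hf : ∀ M, Continuous (f M))
    (hm : ∀ M t, f M t ≤ f (M + 1) t) (h : ∀ M, ∫ r in a..b, f M r ≤ (b - a) * C) :
    ∃ t ∈ Icc a b, ∀ M, f M t ≤ C := by
  have hcl : ∀ M, IsClosed (Icc a b ∩ {t | f M t ≤ C}) := fun M =>
    isClosed_Icc.inter (isClosed_le (hf M) continuous_const)
  obtain ⟨t, ht⟩ := IsCompact.nonempty_iInter_of_sequence_nonempty_isCompact_isClosed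
    (fun M => Icc a b ∩ {t | f M t ≤ C}) (fun M t ht => ⟨ht.1, (hm M t).trans ht.2⟩)
    (fun M => by
      obtain ⟨t, ht, hmin⟩ := (isCompact_Icc (a := a) (b := b)).exists_isMinOn
        (Set.nonempty_Icc.2 hab.le) (hf M).continuousOn
      have h1 := imono (f := fun _ => f M t) hab.le continuous_const (hf M)
        fun r hr => hmin ⟨hr.1.le, hr.2.le⟩
      rw [intervalIntegral.integral_const, smul_eq_mul] at h1
      exact ⟨t, ht, le_of_mul_le_mul_left (h1.trans (h M)) (sub_pos.2 hab)⟩)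
    (isCompact_Icc.inter_right (isClosed_le (hf 0) continuous_const)) hcl
  exact ⟨t, (Set.mem_iInter.1 ht 0).1, fun M => (Set.mem_iInter.1 ht M).2⟩

variable {s T : ℝ} {ν : ℕ → ℝ} {x : ℕ → ℝ → ℝ} {E : ℝ} {m : ℕ} {a b e : ℝ}

theorem Win.decay (w : Win s T ν x E m a b e) (hab : a < b) {ε : ℝ} (hε : 0 < ε) :
    Tl x m b (2 * (ε ^ 2 + 3 * s * e / (kk s m * ε * (b - a)))) := by
  have h := w.h
  have sp := h.spos
  have hs := h.hs
  have kp := h.kpos m
  have e0 := w.e0
  have hD : 0 < b - a := sub_pos.2 hab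
  set C := ε ^ 2 + 3 * s * e / (kk s m * ε * (b - a)) with hC
  have one : ∀ j, ∫ r in a..b, x (m + j) r ^ 2 ≤ (b - a) * C * (1 / 2) ^ j := by
    intro j
    have kj := h.kpos (m + j)
    have hη : 0 < ε * (1 / 2) ^ j := by positivity
    have c5 := h.ccc (m + j)
    have h1 := imono (f := fun r => x (m + j) r ^ 2)
      (g := fun r => (ε * (1 / 2) ^ j) ^ 2 + 1 / (ε * (1 / 2) ^ j * kk s (m + j)) * cc s x (m + j) r)
      hab.le ((h.cont _).pow 2) (by fun_prop) fun t _ => by
        refine (alg5 hη).trans (le_of_eq ?_)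
        unfold cc
        field_simp
    rw [iadd _ _ (by fun_prop) (by fun_prop), icmul, intervalIntegral.integral_const,
      smul_eq_mul] at h1
    have h2 := mul_le_mul_of_nonneg_left (w.cubic j)
      (show 0 ≤ 1 / (ε * (1 / 2) ^ j * kk s (m + j)) by positivity)
    have h3 : (1 / 2 : ℝ) ^ j ≤ 1 := pow_le_one₀ (by norm_num) (by norm_num)
    have h4 : (ε * (1 / 2) ^ j) ^ 2 ≤ ε ^ 2 * (1 / 2) ^ j := by
      have : (0 : ℝ) ≤ ε ^ 2 * (1 / 2) ^ j := by positivity
      nlinarith [mul_le_mul_of_nonneg_left h3 this]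
    have h5 : 1 / (ε * (1 / 2) ^ j * kk s (m + j)) ≤ (1 / 2) ^ j / (kk s m * ε) := by
      rw [div_le_div_iff₀ (by positivity) (by positivity), kk_add]
      have h6 : (1 : ℝ) ≤ (1 / 2 * (1 / 2) * s ^ 2) ^ j := one_le_pow₀ (by nlinarith)
      rw [mul_pow, mul_pow] at h6
      nlinarith [mul_le_mul_of_nonneg_left h6 (show 0 ≤ kk s m * ε by positivity)]
    have h7 := mul_le_mul_of_nonneg_right h5 (show 0 ≤ 3 * s * e by positivity)
    have h8 := mul_le_mul_of_nonneg_left h4 hD.le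
    have e1 : (b - a) * C * (1 / 2) ^ j = (b - a) * (ε ^ 2 * (1 / 2) ^ j) +
        (1 / 2) ^ j / (kk s m * ε) * (3 * s * e) := by rw [hC]; field_simp
    linarith
  obtain ⟨t, ht, h1⟩ := meanval (f := fun M t => ∑ j ∈ range M, x (m + j) t ^ 2) (C := 2 * C) hab
    (fun M => continuous_finsetSum _ fun j _ => (h.cont _).pow 2)
    (fun M t => by rw [Finset.sum_range_succ]; exact le_add_of_nonneg_right (sq_nonneg _))
    (fun M => by
      rw [intervalIntegral.integral_finsetSum (f := fun j r => x (m + j) r ^ 2)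
        fun j _ => ((h.cont _).pow 2).intervalIntegrable _ _]
      refine (Finset.sum_le_sum fun j _ => one j).trans ?_
      rw [← Finset.mul_sum]
      have h2 := mul_le_mul_of_nonneg_left (sum_geometric_two_le M)
        (show 0 ≤ (b - a) * C by positivity)
      linarith)
  exact h.tailTl w.hL m (w.ha.trans ht.1) ht.2 w.hb h1 fun r hr => w.hm r ⟨ht.1.trans_lt hr.1, hr.2⟩

/-- a negative shell obeys a bound that does not depend on the datum -/
theorem Sol.universal (h : Sol s T ν x) (hL : LH T ν x E) (m : ℕ) {t : ℝ} (ht : t ∈ Icc 0 T) :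
    kk s m * t * -x m t ≤ 192 * s := by
  have sp := h.spos
  have kp := h.kpos m
  have hT : 0 ≤ T := ht.1.trans ht.2
  have E0 : 0 ≤ E := by simpa using hL.ineq 0 ⟨le_rfl, hT⟩ 0
  set B := 192 * s / kk s m with hB
  have B0 : 0 < B := by positivity
  set K := T * Real.sqrt E with hK
  have K0 : 0 ≤ K := by positivity
  have key : ∀ i : ℕ, ∀ t ∈ Icc 0 T, (∀ r ∈ Ioo 0 t, x m r ≤ 0) →
      ∀ M, t ^ 2 * ∑ j ∈ range M, x (m + j) t ^ 2 ≤ (B + K * (3 / 4) ^ i) ^ 2 := by
    intro i
    induction i with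
    | zero =>
      intro t ht _ M
      have h1 := (h.tl0 hL ht).shift m M
      rw [zero_add] at h1
      have h2 : t ^ 2 ≤ T ^ 2 := pow_le_pow_left₀ ht.1 ht.2 2
      have h3 : K ^ 2 = T ^ 2 * E := by rw [hK, mul_pow, Real.sq_sqrt E0]
      have h4 := mul_le_mul_of_nonneg_left h1 (sq_nonneg t)
      have h5 := mul_le_mul_of_nonneg_right h2 E0
      rw [pow_zero, mul_one]
      nlinarith [mul_nonneg B0.le K0]
    | succ i ih =>
      intro t ht hm M
      rcases ht.1.eq_or_lt with rfl | t0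
      · rw [zero_pow two_ne_zero, zero_mul]; positivity
      set β := B + K * (3 / 4) ^ i with hβ
      have β0 : 0 < β := by positivity
      have w : Win s T ν x E m (t / 2) t (4 * β ^ 2 / t ^ 2) :=
        ⟨h, hL, by linarith, by linarith, ht.2, fun M => by
          have := ih (t / 2) ⟨by linarith, by linarith [ht.2]⟩
            (fun r hr => hm r ⟨hr.1, by linarith [hr.2]⟩) M
          rw [le_div_iff₀ (by positivity)]
          linarith, fun r hr => hm r ⟨by linarith [hr.1], hr.2⟩⟩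
      have h1 := mul_le_mul_of_nonneg_left
        (w.decay (by linarith) (ε := β / (2 * t)) (by positivity) M) (sq_nonneg t)
      have e1 : t ^ 2 * (2 * ((β / (2 * t)) ^ 2 + 3 * s * (4 * β ^ 2 / t ^ 2) /
          (kk s m * (β / (2 * t)) * (t - t / 2)))) = β ^ 2 / 2 + B * β / 2 := by
        rw [hB, show t - t / 2 = t / 2 by ring]; field_simp; ring
      have e2 : B + K * (3 / 4) ^ (i + 1) = (3 * β + B) / 4 := by rw [hβ]; ring
      rw [e2]
      nlinarith [sq_nonneg (β - B)]
  by_cases h0 : 0 ≤ x m t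
  · have := mul_nonneg (mul_nonneg kp.le ht.1) h0
    linarith
  · have hm : ∀ r ∈ Ioo 0 t, x m r ≤ 0 := fun r hr => by
      by_contra hc
      exact h0 (h.sign m hr.1.le hr.2.le ht.2 (not_le.1 hc).le)
    have lim : Tendsto (fun i : ℕ => (B + K * (3 / 4 : ℝ) ^ i) ^ 2) atTop (𝓝 ((B + K * 0) ^ 2)) :=
      (tendsto_const_nhds.add ((tendsto_pow_atTop_nhds_zero_of_lt_one (by norm_num)
        (by norm_num)).const_mul K)).pow 2
    have h1 := ge_of_tendsto' lim fun i => key i t ht hm 1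
    rw [Finset.sum_range_one, add_zero, mul_zero, add_zero] at h1
    have h2 : t * -x m t ≤ B := abs_le_of_sq_le_sq' (a := t * -x m t) (by nlinarith) B0.le |>.2
    rw [hB, le_div_iff₀ kp] at h2
    linarith

end

end DyKP
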