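import Pool.Agent.Lib.MP_3d7a54_an.Decay

/-! Uniqueness: a Gronwall argument with a logarithmically divergent rate. -/

namespace DyKP

open Set (Icc Ioo)
open Finset (range)
open MeasureTheory intervalIntegral Filter Topology

noncomputable section

variable {s T : ℝ} {ν : ℕ → ℝ} {x y : ℕ → ℝ → ℝ} {E : ℝ}

/-- the weighted flux of the difference of two solutions -/
def uu (s : ℝ) (x y : ℕ → ℝ → ℝ) (n : ℕ) (t : ℝ) : ℝ :=
  2 * (G s x n t - G s y n t) * (x n t - y n t) / 2 ^ n

theorem alg6 {p p' q q' : ℝ} (hp : 0 ≤ p) (hp' : 0 ≤ p') (hq : 0 ≤ q) (hq' : 0 ≤ q') :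
    (p + p') ^ 2 * (q + q') ≤ 4 * (p ^ 3 + p' ^ 3) + 4 * (q ^ 3 + q' ^ 3) := by
  have h1 := alg3 (η := 1) one_pos (add_nonneg hp hp') (add_nonneg hq hq')
  have h2 := mul_nonneg (add_nonneg hp hp') (sq_nonneg (p - p'))
  have h3 := mul_nonneg (add_nonneg hq hq') (sq_nonneg (q - q'))
  rw [one_mul, one_pow, div_one] at h1
  nlinarith

theorem Sol.win0 (h : Sol s T ν x) (hL : LH T ν x E) {t : ℝ} (ht : t ∈ Icc 0 T) :
    Win s T ν x E 0 0 t E :=
  ⟨h, hL, le_rfl, ht.1, ht.2, h.tl0 hL ⟨le_rfl, ht.1.trans ht.2⟩, fun r _ => (h.zero r).le⟩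

theorem Sol.cubic0 (h : Sol s T ν x) (hL : LH T ν x E) {t : ℝ} (ht : t ∈ Icc 0 T) (n : ℕ) :
    ∫ r in (0 : ℝ)..t, cc s x n r ≤ 3 * s * E := by
  simpa using (h.win0 hL ht).cubic n

theorem Sol.bound (h : Sol s T ν x) (hL : LH T ν x E) {t : ℝ} (ht : t ∈ Icc 0 T) (n : ℕ) :
    |x n t| ≤ Real.sqrt E := by
  simpa using (h.win0 hL ht).abs_le ⟨ht.1, le_rfl⟩ n

theorem cuu (hx : Sol s T ν x) (hy : Sol s T ν y) (n : ℕ) : Continuous (uu s x y n) := by
  have c1 := hx.cG n
  have c2 := hy.cG n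
  have c3 := hx.cont n
  have c4 := hy.cont n
  unfold uu
  fun_prop

theorem int_uu (hx : Sol s T ν x) (hy : Sol s T ν y) (lx : LH T ν x E) (ly : LH T ν y E) {t : ℝ}
    (ht : t ∈ Icc 0 T) (n : ℕ) : ∫ r in (0 : ℝ)..t, |uu s x y (n + 1) r| ≤ 48 * s * E / 2 ^ n := by
  have c1 := hx.ccc n
  have c2 := hy.ccc n
  have c3 := hx.ccc (n + 1)
  have c4 := hy.ccc (n + 1)
  have kp := hx.kpos n
  have hs := hx.hs
  have h1 := imono (g := fun r => 4 / 2 ^ n *
      (cc s x n r + cc s y n r + cc s x (n + 1) r + cc s y (n + 1) r)) ht.1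
    (cuu hx hy (n + 1)).abs (by fun_prop) fun r _ => by
      have e1 : uu s x y (n + 1) r = kk s n / 2 ^ n *
          ((x n r + y n r) * (x n r - y n r) * (x (n + 1) r - y (n + 1) r)) := by
        unfold uu G; field_simp; ring
      have a1 : |x n r + y n r| ≤ |x n r| + |y n r| := abs_add_le _ _
      have a2 : |x n r - y n r| ≤ |x n r| + |y n r| := abs_sub _ _
      have a3 : |x (n + 1) r - y (n + 1) r| ≤ |x (n + 1) r| + |y (n + 1) r| := abs_sub _ _
      have a4 : |(x n r + y n r) * (x n r - y n r) * (x (n + 1) r - y (n + 1) r)| ≤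
          (|x n r| + |y n r|) ^ 2 * (|x (n + 1) r| + |y (n + 1) r|) := by
        rw [abs_mul, abs_mul, sq]
        exact mul_le_mul (mul_le_mul a1 a2 (abs_nonneg _) (by positivity)) a3 (abs_nonneg _)
          (by positivity)
      have a5 := a4.trans (alg6 (abs_nonneg _) (abs_nonneg _) (abs_nonneg _) (abs_nonneg _))
      have a6 : |x (n + 1) r| ^ 3 + |y (n + 1) r| ^ 3 ≤
          s ^ 2 * (|x (n + 1) r| ^ 3 + |y (n + 1) r| ^ 3) :=
        le_mul_of_one_le_left (by positivity) (by nlinarith)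
      rw [e1, abs_mul, abs_of_pos (show 0 < kk s n / 2 ^ n by positivity)]
      refine (mul_le_mul_of_nonneg_left (a5.trans (add_le_add le_rfl
        (mul_le_mul_of_nonneg_left a6 (by norm_num)))) (by positivity)).trans (le_of_eq ?_)
      unfold cc
      rw [kk_succ]
      ring
  rw [icmul, iadd _ _ (by fun_prop) (by fun_prop), iadd _ _ (by fun_prop) (by fun_prop),
    iadd _ _ (by fun_prop) (by fun_prop)] at h1
  have b1 := hx.cubic0 lx ht n
  have b2 := hy.cubic0 ly ht n
  have b3 := hx.cubic0 lx ht (n + 1)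
  have b4 := hy.cubic0 ly ht (n + 1)
  refine h1.trans ((mul_le_mul_of_nonneg_left (add_le_add (add_le_add (add_le_add b1 b2) b3) b4)
    (by positivity)).trans (le_of_eq ?_))
  ring

theorem rate (hx : Sol s T ν x) (lx : LH T ν x E) {t R : ℝ} (ht : t ∈ Icc 0 T)
    (hR : Real.sqrt E ≤ R) {n N : ℕ} (hn : n ≤ N) :
    kk s n * -x (n + 1) t * t ≤ 192 / s ∧ kk s n * -x (n + 1) t ≤ kk s N * R := by
  have sp := hx.spos
  have hs := hx.hs
  constructor
  · have h1 := hx.universal lx (n + 1) ht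
    rw [kk_succ] at h1
    rw [le_div_iff₀ sp]
    refine le_of_mul_le_mul_left ?_ sp
    linarith
  · have h1 : kk s n ≤ kk s N := pow_le_pow_right₀ (by nlinarith) (by omega)
    have h2 := (neg_le_abs _).trans ((hx.bound lx ht (n + 1)).trans hR)
    exact (mul_le_mul_of_nonneg_left h2 (hx.kpos n).le).trans
      (mul_le_mul_of_nonneg_right h1 ((Real.sqrt_nonneg E).trans hR))

theorem gronwall (hx : Sol s T ν x) (hy : Sol s T ν y) (lx : LH T ν x E) (ly : LH T ν y E)
    (h0 : ∀ n, x n 0 = y n 0) {t R : ℝ} (ht : t ∈ Icc 0 T) (hR : Real.sqrt E ≤ R) (R0 : 0 < R)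
    (N : ℕ) : ∑ n ∈ range N, (x n t - y n t) ^ 2 / 2 ^ n ≤
      Real.exp (768 / s * Real.log (1 + t * (kk s N * R * s / 192))) *
        ∫ r in (0 : ℝ)..t, |uu s x y N r| := by
  have sp := hx.spos
  have kp := hx.kpos N
  set τ := 192 / (kk s N * R * s) with hτ
  have τ0 : 0 < τ := by positivity
  set θ := 768 / s with hθ
  have θ0 : 0 < θ := by positivity
  have cΦ : Continuous fun r => ∑ n ∈ range N, (x n r - y n r) ^ 2 / 2 ^ n :=
    continuous_finsetSum _ fun n _ => (((hx.cont n).sub (hy.cont n)).pow 2).div_const _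
  have key := up
    (f := fun r => (∑ n ∈ range N, (x n r - y n r) ^ 2 / 2 ^ n) * Real.exp (-θ * Real.log (r + τ)))
    (φ := fun r => Real.exp (-θ * Real.log τ) * |uu s x y N r|) ht.1
    (cΦ.continuousOn.mul (Real.continuous_exp.comp_continuousOn (continuousOn_const.mul
      ((continuous_id'.add continuous_const).continuousOn.log fun r hr =>
        ne_of_gt (add_pos_of_nonneg_of_pos hr.1 τ0)))))
    (fun r hr => (HasDerivAt.fun_sum fun n _ =>
      (((hx.ode' n le_rfl ht.2 r hr).fun_sub (hy.ode' n le_rfl ht.2 r hr)).fun_pow 2).div_const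
        (2 ^ n)).fun_mul (((((hasDerivAt_id' r).add_const τ).log
          (ne_of_gt (by have := hr.1; linarith))).const_mul (-θ)).exp))
    (continuous_const.mul (cuu hx hy N).abs) (fun r hr => by
      have r0 := hr.1
      have hr' : r ∈ Icc 0 T := ⟨r0.le, hr.2.le.trans ht.2⟩
      have s1 : ∑ n ∈ range N, ((2 : ℕ) : ℝ) * (x n r - y n r) ^ (2 - 1) *
          (-(ν n * x n r) + G s x n r - kk s n * x n r * x (n + 1) r -
            (-(ν n * y n r) + G s y n r - kk s n * y n r * y (n + 1) r)) / 2 ^ n ≤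
          ∑ n ∈ range N, ((uu s x y n r - uu s x y (n + 1) r) +
            θ * (1 / (r + τ)) * ((x n r - y n r) ^ 2 / 2 ^ n)) := by
        refine Finset.sum_le_sum fun n hn => ?_
        have hn' : n ≤ N := (Finset.mem_range.1 hn).le
        obtain ⟨a1, a2⟩ := rate hx lx hr' hR hn'
        obtain ⟨b1, b2⟩ := rate hy ly hr' hR hn'
        have c1 : kk s N * R * τ = 192 / s := by rw [hτ]; field_simp
        have a3 := mul_le_mul_of_nonneg_right a2 τ0.le
        have b3 := mul_le_mul_of_nonneg_right b2 τ0.le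
        have c2 : kk s n * -x (n + 1) r + kk s n * -y (n + 1) r ≤ θ * (1 / (r + τ)) := by
          rw [mul_one_div, le_div_iff₀ (by linarith)]
          have : θ = 4 * (192 / s) := by rw [hθ]; ring
          linarith
        have z0 : 0 ≤ (x n r - y n r) ^ 2 / 2 ^ n := by positivity
        have c3 := mul_le_mul_of_nonneg_right c2 z0
        have c4 := mul_nonneg (hx.n0 n) z0
        have e1 : ((2 : ℕ) : ℝ) * (x n r - y n r) ^ (2 - 1) *
            (-(ν n * x n r) + G s x n r - kk s n * x n r * x (n + 1) r -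
              (-(ν n * y n r) + G s y n r - kk s n * y n r * y (n + 1) r)) / 2 ^ n =
            (uu s x y n r - uu s x y (n + 1) r) - 2 * (ν n * ((x n r - y n r) ^ 2 / 2 ^ n)) +
            (kk s n * -x (n + 1) r + kk s n * -y (n + 1) r) * ((x n r - y n r) ^ 2 / 2 ^ n) := by
          have g1 : G s x (n + 1) r = kk s n * x n r ^ 2 := rfl
          have g2 : G s y (n + 1) r = kk s n * y n r ^ 2 := rfl
          unfold uu
          rw [g1, g2]
          simp only [Nat.cast_ofNat, Nat.add_one_sub_one, pow_one]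
          field_simp
          ring
        rw [e1]
        linarith
      rw [Finset.sum_add_distrib, Finset.sum_range_sub', ← Finset.mul_sum] at s1
      have u0 : uu s x y 0 r = 0 := by simp [uu, G]
      have x1 : Real.exp (-θ * Real.log (r + τ)) ≤ Real.exp (-θ * Real.log τ) :=
        Real.exp_le_exp.2 (by
          have := mul_le_mul_of_nonneg_left (Real.log_le_log τ0 (show τ ≤ r + τ by linarith)) θ0.le
          linarith)
      have x2 := mul_le_mul_of_nonneg_right x1 (abs_nonneg (uu s x y N r))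
      have x3 := mul_le_mul_of_nonneg_right s1 (Real.exp_pos (-θ * Real.log (r + τ))).le
      have x4 := mul_le_mul_of_nonneg_left (neg_le_abs (uu s x y N r))
        (Real.exp_pos (-θ * Real.log (r + τ))).le
      rw [u0] at x3
      linarith)
  rw [icmul] at key
  simp only [h0, sub_self, ne_eq, OfNat.ofNat_ne_zero, not_false_eq_true, zero_pow, zero_div,
    Finset.sum_const_zero, zero_mul, sub_zero] at key
  have e1 : 1 + t * (kk s N * R * s / 192) = (t + τ) / τ := by rw [hτ]; field_simp; ring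
  have t0 : 0 < t + τ := by linarith [ht.1]
  have e2 : Real.exp (θ * Real.log ((t + τ) / τ)) * Real.exp (-θ * Real.log (t + τ)) =
      Real.exp (-θ * Real.log τ) := by
    rw [← Real.exp_add, Real.log_div t0.ne' τ0.ne']; congr 1; ring
  rw [e1]
  refine le_of_mul_le_mul_right ?_ (Real.exp_pos (-θ * Real.log (t + τ)))
  rw [mul_right_comm, e2]
  exact key

theorem small {s : ℝ} (hs : 100000 ≤ s) : Real.exp (768 / s * Real.log (s ^ 2)) ≤ 3 / 2 := by
  have sp : 0 < s := by linarith
  have h1 : Real.log (s / 2 ^ 17) ≤ s / 2 ^ 17 - 1 := Real.log_le_sub_one_of_pos (by positivity)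
  rw [Real.log_div sp.ne' (by positivity), Real.log_pow] at h1
  have h2 := Real.log_two_lt_d9
  have h3 : 1 - (3 / 2 : ℝ)⁻¹ ≤ Real.log (3 / 2) := Real.one_sub_inv_le_log_of_pos (by norm_num)
  rw [← Real.le_log_iff_exp_le (by norm_num), Real.log_pow, div_mul_eq_mul_div, div_le_iff₀ sp]
  have h4 := mul_le_mul_of_nonneg_right h3 sp.le
  push_cast at h1 ⊢
  norm_num at h1 h4
  linarith

/-- two solutions with the energy inequality and the same datum coincide -/
theorem unique (hx : Sol s T ν x) (hy : Sol s T ν y) (lx : LH T ν x E) (ly : LH T ν y E)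
    (h0 : ∀ n, x n 0 = y n 0) {t : ℝ} (ht : t ∈ Icc 0 T) (n : ℕ) : x n t = y n t := by
  have sp := hx.spos
  have hs := hx.hs
  have t0 := ht.1
  have E0 : 0 ≤ E := by simpa using lx.ineq 0 ⟨le_rfl, ht.1.trans ht.2⟩ 0
  set R := Real.sqrt E + 1 with hR
  have R0 : 0 < R := by positivity
  set C := 1 + t * (s ^ 2 * R * s / 192) with hC
  have C0 : 0 < C := by positivity
  set D := Real.exp (768 / s * Real.log C) * (3 / 2) * (48 * s * E) with hD
  have main : ∀ N, n ≤ N → (x n t - y n t) ^ 2 / 2 ^ n ≤ D * (3 / 4) ^ N := by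
    intro N hN
    have g := gronwall hx hy lx ly h0 ht (show Real.sqrt E ≤ R by linarith) R0 (N + 1)
    have g1 : (x n t - y n t) ^ 2 / 2 ^ n ≤ ∑ n ∈ range (N + 1), (x n t - y n t) ^ 2 / 2 ^ n :=
      Finset.single_le_sum (f := fun n => (x n t - y n t) ^ 2 / 2 ^ n)
        (fun _ _ => by positivity) (Finset.mem_range.2 (by omega))
    have g2 : 1 + t * (kk s (N + 1) * R * s / 192) ≤ C * (s ^ 2) ^ (N + 1) := by
      have : (1 : ℝ) ≤ (s ^ 2) ^ (N + 1) := one_le_pow₀ (by nlinarith)
      have e : C * (s ^ 2) ^ (N + 1) = (s ^ 2) ^ (N + 1) + t * (kk s (N + 1) * R * s / 192) := by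
        rw [hC]; unfold kk; ring
      linarith
    have kp := hx.kpos (N + 1)
    have g3 : Real.exp (768 / s * Real.log (1 + t * (kk s (N + 1) * R * s / 192))) ≤
        Real.exp (768 / s * Real.log C) * (3 / 2) ^ (N + 1) := by
      refine (Real.exp_le_exp.2 (mul_le_mul_of_nonneg_left
        (Real.log_le_log (by positivity) g2) (by positivity))).trans ?_
      rw [Real.log_mul C0.ne' (by positivity), Real.log_pow (s ^ 2), mul_add, Real.exp_add,
        mul_left_comm, Real.exp_nat_mul]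
      exact mul_le_mul_of_nonneg_left
        (pow_le_pow_left₀ (Real.exp_pos _).le (small hs) _) (Real.exp_pos _).le
    refine (g1.trans g).trans ((mul_le_mul g3 (int_uu hx hy lx ly ht N)
      (integral_nonneg_of_forall ht.1 fun _ => abs_nonneg _) (by positivity)).trans (le_of_eq ?_))
    have e : (3 / 4 : ℝ) ^ N = (3 / 2) ^ N / 2 ^ N := by rw [← div_pow]; norm_num
    rw [hD, e]
    ring
  have lim : Tendsto (fun N : ℕ => D * (3 / 4 : ℝ) ^ N) atTop (𝓝 (D * 0)) :=
    (tendsto_pow_atTop_nhds_zero_of_lt_one (by norm_num) (by norm_num)).const_mul D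
  rw [mul_zero] at lim
  have h1 := ge_of_tendsto lim (eventually_atTop.2 ⟨n, main⟩)
  rw [div_le_iff₀ (by positivity), zero_mul] at h1
  exact sub_eq_zero.1 (pow_eq_zero_iff two_ne_zero |>.1 (le_antisymm h1 (sq_nonneg _)))

end

end DyKP
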