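import Pool.Agent.Lib.MP_3d7a54_an.Uniq

/-! Solutions with continuous energy and small critical time averages obey the energy inequality. -/

namespace DyKP

open Set (Icc Ioo Ioc)
open Finset (range)
open MeasureTheory intervalIntegral Filter Topology

noncomputable section

variable {s T : ℝ} {ν : ℕ → ℝ} {x : ℕ → ℝ → ℝ}

theorem Sol.lh_of_weak (h : Sol s T ν x) (hT : 0 ≤ T) {e : ℝ → ℝ} (hc : ContinuousOn e (Icc 0 T))
    (he : ∀ t ∈ Icc 0 T, Tendsto (fun N => ∑ n ∈ range N, x n t ^ 2) atTop (𝓝 (e t)))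
    (h1 : ∀ δ, 0 < δ → Tendsto (fun N => kk s N * Real.exp (-(ν N * δ))) atTop (𝓝 0))
    (h2 : ∀ δ, 0 < δ → ∀ᶠ N in atTop, kk s N * ∫ r in (0 : ℝ)..T, |x (N + 1) r| ≤ ν N * δ) :
    LH T ν x (e 0) := by
  have hs := h.hs
  have part : ∀ t ∈ Icc 0 T, ∀ N, ∑ n ∈ range N, x n t ^ 2 ≤ e t := fun t ht N =>
    ge_of_tendsto (he t ht) (eventually_atTop.2 ⟨N, fun M hM =>
      Finset.sum_le_sum_of_subset_of_nonneg (Finset.range_mono hM) fun _ _ _ => sq_nonneg _⟩)
  obtain ⟨C, hC⟩ := isCompact_Icc.bddAbove_image hc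
  have sq : ∀ t ∈ Icc 0 T, ∀ n, x n t ^ 2 ≤ C := fun t ht n => by
    have a1 := part t ht (n + 1)
    have a2 : e t ≤ C := hC ⟨t, ht, rfl⟩
    have a3 : 0 ≤ ∑ i ∈ range n, x i t ^ 2 := Finset.sum_nonneg fun _ _ => sq_nonneg _
    rw [Finset.sum_range_succ] at a1
    linarith
  have C0 : 0 ≤ C := (sq_nonneg _).trans (sq 0 ⟨le_rfl, hT⟩ 0)
  have R0 := Real.sqrt_nonneg C
  have step : ∀ a b, 0 < a → a ≤ b → b ≤ T → ∀ M,
      ∑ n ∈ range M, (x n b ^ 2 + 2 * ν n * ∫ r in a..b, x n r ^ 2) ≤ e a := by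
    intro a b a0 hab hb M
    have lim : Tendsto (fun N => e a + 2 * ((b - a) * (C * Real.sqrt C *
        (kk s N * Real.exp (-(ν N * (a / 2))))))) atTop
        (𝓝 (e a + 2 * ((b - a) * (C * Real.sqrt C * 0)))) :=
      tendsto_const_nhds.add ((((h1 (a / 2) (by linarith)).const_mul _).const_mul _).const_mul _)
    rw [mul_zero, mul_zero, mul_zero, add_zero] at lim
    refine ge_of_tendsto lim ?_
    filter_upwards [h2 (a / 2) (by linarith), eventually_ge_atTop M] with N hN hM
    have kp := h.kpos N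
    have low : ∀ r ∈ Ioo a b, -(C * Real.sqrt C * (kk s N * Real.exp (-(ν N * (a / 2))))) ≤
        In s x N r := by
      intro r hr
      have r0 : 0 ≤ r := a0.le.trans hr.1.le
      have rT : r ≤ T := hr.2.le.trans hb
      have b1 := h.mono N le_rfl r0 rT
      have c1 := (h.cont (N + 1)).abs
      have b2 := imono (f := fun q => ν N - kk s N * |x (N + 1) q|)
        (g := fun q => ν N + kk s N * x (N + 1) q) r0 (by fun_prop)
        (continuous_const.add (continuous_const.mul (h.cont _))) fun q _ => by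
          have := mul_le_mul_of_nonneg_left (neg_abs_le (x (N + 1) q)) kp.le
          linarith
      rw [isub _ _ (by fun_prop) (by fun_prop), icmul, intervalIntegral.integral_const,
        smul_eq_mul] at b2
      have b3 := isplit 0 r T c1
      have b4 : 0 ≤ ∫ q in r..T, |x (N + 1) q| := integral_nonneg_of_forall rT fun _ => abs_nonneg _
      have b5 := mul_le_mul_of_nonneg_left (show ∫ q in (0 : ℝ)..r, |x (N + 1) q| ≤
        ∫ q in (0 : ℝ)..T, |x (N + 1) q| by linarith) kp.le
      have b6 := mul_le_mul_of_nonneg_right hr.1.le (h.n0 N)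
      set H := ∫ q in (0 : ℝ)..r, (ν N + kk s N * x (N + 1) q) with hH
      have b7 : Real.exp (-H) ≤ Real.exp (-(ν N * (a / 2))) := Real.exp_le_exp.2 (by linarith)
      have b8 := (abs_le.1 (Real.abs_le_sqrt (sq 0 ⟨le_rfl, hT⟩ N))).1
      have b9 : -(Real.sqrt C * Real.exp (-(ν N * (a / 2)))) ≤ x N r := by
        have e1 : x N r * Real.exp H * Real.exp (-H) = x N r := by
          rw [mul_assoc, ← Real.exp_add, add_neg_cancel, Real.exp_zero, mul_one]
        have := mul_le_mul_of_nonneg_right (b8.trans b1) (Real.exp_pos (-H)).le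
        have := mul_le_mul_of_nonneg_left b7 R0
        linarith
      have g1 : G s x N r ≤ kk s N * C := by
        cases N with
        | zero => exact mul_nonneg kp.le C0
        | succ n =>
          have a1 : kk s n ≤ kk s (n + 1) := pow_le_pow_right₀ (by nlinarith) (by omega)
          exact mul_le_mul a1 (sq r ⟨r0, rT⟩ n) (sq_nonneg _) kp.le
      have g2 := mul_le_mul_of_nonneg_left b9 (G_nonneg s x N r)
      have g3 := mul_le_mul_of_nonneg_right g1
        (mul_nonneg R0 (Real.exp_pos (-(ν N * (a / 2)))).le)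
      unfold In
      linarith
    have d1 := imono hab continuous_const (h.cIn N) low
    rw [intervalIntegral.integral_const, smul_eq_mul] at d1
    have d2 := h.energy 0 N a0.le hab hb
    simp only [zero_add, In_zero, intervalIntegral.integral_zero, mul_zero, add_zero] at d2
    have d3 := part a ⟨a0.le, hab.trans hb⟩ N
    have d4 : ∑ n ∈ range M, (x n b ^ 2 + 2 * ν n * ∫ r in a..b, x n r ^ 2) ≤
        ∑ n ∈ range N, (x n b ^ 2 + 2 * ν n * ∫ r in a..b, x n r ^ 2) :=
      Finset.sum_le_sum_of_subset_of_nonneg (Finset.range_mono hM)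
        fun n _ _ => add_nonneg (sq_nonneg _) (h.term_nonneg n hab)
    linarith
  refine ⟨he 0 ⟨le_rfl, hT⟩, fun t ht M => ?_⟩
  rcases ht.1.eq_or_lt with rfl | t0
  · simpa using part 0 ht M
  · have cl : closure (Ioc 0 t) = Icc 0 t := closure_Ioc t0.ne
    have cf : Continuous fun a => ∑ n ∈ range M, (x n t ^ 2 + 2 * ν n * ∫ r in a..t, x n r ^ 2) :=
      continuous_finsetSum _ fun n _ => continuous_const.add (continuous_const.mul (by
        have c : Continuous fun r => x n r ^ 2 := (h.cont n).pow 2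
        have : (fun a => ∫ r in a..t, x n r ^ 2) = fun a => -∫ r in t..a, x n r ^ 2 :=
          funext fun a => integral_symm _ _
        rw [this]
        exact (continuous_iff_continuousAt.2 fun q =>
          (c.integral_hasStrictDerivAt t q).hasDerivAt.continuousAt).neg))
    exact le_on_closure (s := Ioc 0 t) (fun a ha => step a t ha.1 ha.2 ht.2 M) cf.continuousOn
      (by rw [cl]; exact hc.mono (Set.Icc_subset_Icc_right ht.2)) (by rw [cl]; exact ⟨le_rfl, ht.1⟩)

end

end DyKP
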